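import Pool.Agent.K1H35.JA.Stm

/-! Final numerics (project JA, for helper35). -/

set_option autoImplicit false

namespace Pool.Agent.K1H33.JA

open Finset Pool.Agent.K1H35.JA

lemma M1_le {k n B : ℕ} (hk : k ≤ B) {m : ℕ} (hn : n ≤ B ^ m) : M1 k n ≤ B ^ (k + m * k) := by
  unfold M1
  calc k.factorial * n ^ k ≤ B ^ k * (B ^ m) ^ k :=
        Nat.mul_le_mul ((Nat.factorial_le_pow k).trans (Nat.pow_le_pow_left hk k))
          (Nat.pow_le_pow_left hn k)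
    _ = B ^ (k + m * k) := by rw [← pow_mul, ← pow_add]

lemma one_add_le {B : ℕ} (hB : 2 ≤ B) (m : ℕ) : 1 + B ^ m ≤ B ^ (m + 1) := by
  have h1 : 1 ≤ B ^ m := Nat.one_le_pow _ _ (by omega)
  calc 1 + B ^ m ≤ B ^ m + B ^ m := by omega
    _ = B ^ m * 2 := by ring
    _ ≤ B ^ m * B := Nat.mul_le_mul_left _ hB
    _ = B ^ (m + 1) := (pow_succ _ _).symm

lemma nthr_le {n k Λ : ℕ} (hn : 2 ≤ n) (hk : 1 ≤ k) (hΛ : 1 ≤ Λ) :
    Nthr k n Λ + Λ ≤ (n + k) ^ (30 * k ^ 3) * Λ := by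
  obtain ⟨B, hB⟩ : ∃ B, B = n + k := ⟨_, rfl⟩
  rw [← hB]
  have hB3 : 3 ≤ B := by omega
  have hB1 : 1 ≤ B := by omega
  have hB2 : 2 ≤ B := by omega
  have hkB : k ≤ B := by omega
  have hnB : n ≤ B := by omega
  have hn1B : n + 1 ≤ B := by omega
  have k1 : k ≤ k ^ 2 := by
    calc k = k ^ 1 := (pow_one k).symm
      _ ≤ k ^ 2 := Nat.pow_le_pow_right hk (by norm_num)
  have k2 : k ≤ k ^ 3 := by
    calc k = k ^ 1 := (pow_one k).symm
      _ ≤ k ^ 3 := Nat.pow_le_pow_right hk (by norm_num)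
  have k3 : k ^ 2 ≤ k ^ 3 := Nat.pow_le_pow_right hk (by norm_num)
  have k4 : 1 ≤ k ^ 2 := Nat.one_le_pow _ _ hk
  have k5 : 1 ≤ k ^ 3 := Nat.one_le_pow _ _ hk
  have hM : M1 k n ≤ B ^ (2 * k) := by
    have := M1_le hkB (m := 1) (n := n) (by rw [pow_one]; exact hnB)
    refine this.trans (le_of_eq ?_)
    congr 1
    ring
  have hMM : M1 k (M1 k n) ≤ B ^ (k + 2 * k * k) := M1_le hkB hM
  have hG : Gam k (M1 k n) ≤ B ^ (8 * k ^ 2) := by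
    unfold Gam
    have h1 : k ^ 2 * M1 k n * M1 k (M1 k n) ≤ B ^ 2 * B ^ (2 * k) * B ^ (k + 2 * k * k) :=
      Nat.mul_le_mul (Nat.mul_le_mul (Nat.pow_le_pow_left hkB 2) hM) hMM
    rw [← pow_add, ← pow_add] at h1
    have h2 := one_add_le hB2 (2 + 2 * k + (k + 2 * k * k))
    have h3 : 2 + 2 * k + (k + 2 * k * k) + 1 ≤ 8 * k ^ 2 := by nlinarith
    have h4 := Nat.pow_le_pow_right hB1 h3
    omega
  have hGk : Gam k (M1 k n) ^ (k + 1) ≤ B ^ (16 * k ^ 3) := by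
    calc Gam k (M1 k n) ^ (k + 1) ≤ (B ^ (8 * k ^ 2)) ^ (k + 1) := Nat.pow_le_pow_left hG _
      _ = B ^ (8 * k ^ 2 * (k + 1)) := (pow_mul _ _ _).symm
      _ ≤ B ^ (16 * k ^ 3) := by
          apply Nat.pow_le_pow_right hB1
          nlinarith
  have hM0 : M0 k n ≤ B ^ (3 + 2 * k) := by
    unfold M0
    have h1 : k * n + 1 ≤ B ^ 3 := by
      have h2 : k * n ≤ B ^ 2 := by
        calc k * n ≤ B * B := Nat.mul_le_mul hkB hnB
          _ = B ^ 2 := by ring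
      have h3 : 1 + B ^ 2 ≤ B ^ 3 := one_add_le hB2 2
      omega
    calc (k * n + 1) * M1 k n ≤ B ^ 3 * B ^ (2 * k) := Nat.mul_le_mul h1 hM
      _ = B ^ (3 + 2 * k) := (pow_add _ _ _).symm
  have hR0 : R0 k n ≤ B ^ (4 + 3 * k) := by
    unfold R0
    calc (n + 1) ^ k * M0 k n * n ≤ B ^ k * B ^ (3 + 2 * k) * B :=
          Nat.mul_le_mul (Nat.mul_le_mul (Nat.pow_le_pow_left hn1B k) hM0) hnB
      _ = B ^ (4 + 3 * k) := by
          rw [← pow_add, ← pow_succ]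
          congr 1
          ring
  have hCB : CB k n ≤ B ^ (7 + 5 * k) := by
    unfold CB
    have h1 : (n + 1) ^ 2 + R0 k n ≤ B ^ (5 + 3 * k) := by
      have h2 : (n + 1) ^ 2 ≤ B ^ (4 + 3 * k) :=
        (Nat.pow_le_pow_left hn1B 2).trans (Nat.pow_le_pow_right hB1 (by omega))
      calc (n + 1) ^ 2 + R0 k n ≤ B ^ (4 + 3 * k) + B ^ (4 + 3 * k) := Nat.add_le_add h2 hR0
        _ = B ^ (4 + 3 * k) * 2 := by ring
        _ ≤ B ^ (4 + 3 * k) * B := Nat.mul_le_mul_left _ hB2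
        _ = B ^ (5 + 3 * k) := by
            rw [← pow_succ]
            congr 1
            ring
    have h3 : k * M1 k n * ((n + 1) ^ 2 + R0 k n) ≤ B ^ (6 + 5 * k) := by
      calc k * M1 k n * ((n + 1) ^ 2 + R0 k n) ≤ B * B ^ (2 * k) * B ^ (5 + 3 * k) :=
            Nat.mul_le_mul (Nat.mul_le_mul hkB hM) h1
        _ = B ^ (6 + 5 * k) := by
            rw [← pow_succ', ← pow_add]
            congr 1
            ring
    have h4 := one_add_le hB2 (6 + 5 * k)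
    have h5 : 6 + 5 * k + 1 = 7 + 5 * k := by ring
    rw [h5] at h4
    omega
  have hCB' : CB k n ≤ B ^ (12 * k ^ 3) * Λ := by
    calc CB k n ≤ B ^ (7 + 5 * k) := hCB
      _ ≤ B ^ (12 * k ^ 3) := Nat.pow_le_pow_right hB1 (by nlinarith)
      _ ≤ B ^ (12 * k ^ 3) * Λ := Nat.le_mul_of_pos_right _ hΛ
  have hMΛ : M1 k n * Λ ≤ B ^ (12 * k ^ 3) * Λ :=
    Nat.mul_le_mul_right _ (hM.trans (Nat.pow_le_pow_right hB1 (by nlinarith)))
  have hN : Nthr k n Λ ≤ B ^ (28 * k ^ 3) * (2 * Λ) + 1 := by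
    unfold Nthr
    have h1 : Gam k (M1 k n) ^ (k + 1) * (CB k n + M1 k n * Λ) ≤
        B ^ (16 * k ^ 3) * (B ^ (12 * k ^ 3) * Λ + B ^ (12 * k ^ 3) * Λ) :=
      Nat.mul_le_mul hGk (Nat.add_le_add hCB' hMΛ)
    have h2 : B ^ (16 * k ^ 3) * (B ^ (12 * k ^ 3) * Λ + B ^ (12 * k ^ 3) * Λ) =
        B ^ (28 * k ^ 3) * (2 * Λ) := by
      have : 28 * k ^ 3 = 16 * k ^ 3 + 12 * k ^ 3 := by ring
      rw [this, pow_add]
      ring
    omega
  have hX : 1 ≤ B ^ (28 * k ^ 3) := Nat.one_le_pow _ _ (by omega)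
  obtain ⟨X, hXd⟩ : ∃ X, X = B ^ (28 * k ^ 3) := ⟨_, rfl⟩
  rw [← hXd] at hN hX
  have h1 : Nthr k n Λ + Λ ≤ 4 * (X * Λ) := by
    have h2 : Λ ≤ X * Λ := Nat.le_mul_of_pos_left _ hX
    have h3 : X * (2 * Λ) = 2 * (X * Λ) := by ring
    omega
  have h2 : 4 ≤ B ^ 2 := by nlinarith
  calc Nthr k n Λ + Λ ≤ 4 * (X * Λ) := h1
    _ ≤ B ^ 2 * (X * Λ) := Nat.mul_le_mul_right _ h2
    _ = B ^ (2 + 28 * k ^ 3) * Λ := by rw [hXd, pow_add]; ring
    _ ≤ B ^ (30 * k ^ 3) * Λ := by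
        apply Nat.mul_le_mul_right
        apply Nat.pow_le_pow_right hB1
        omega

theorem t_NUM : S_NUM := by
  intro C0 hC0
  refine ⟨30 + C0, by linarith, ?_⟩
  intro n k Λ hn hk hΛ hΛe
  have hB0 : (0 : ℝ) < (n : ℝ) + k := by
    have : (2 : ℝ) ≤ n := by exact_mod_cast hn
    positivity
  have hB1 : (1 : ℝ) ≤ (n : ℝ) + k := by
    have h1 : (2 : ℝ) ≤ n := by exact_mod_cast hn
    have h2 : (0 : ℝ) ≤ k := Nat.cast_nonneg k
    linarith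
  have hlog : 0 ≤ Real.log ((n : ℝ) + k) := Real.log_nonneg hB1
  have h1 : ((Nthr k n Λ + Λ : ℕ) : ℝ) ≤ ((n : ℝ) + k) ^ (30 * k ^ 3) * Λ := by
    exact_mod_cast nthr_le hn hk hΛ
  obtain ⟨s, hs⟩ : ∃ s : ℝ, s = Real.sqrt (n * Real.log n) := ⟨_, rfl⟩
  have hs0 : 0 ≤ s := by rw [hs]; exact Real.sqrt_nonneg _
  rw [← hs] at hΛe ⊢
  have hk0 : (0 : ℝ) ≤ k := Nat.cast_nonneg k
  calc ((Nthr k n Λ + Λ : ℕ) : ℝ) ^ k ≤ (((n : ℝ) + k) ^ (30 * k ^ 3) * Λ) ^ k :=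
        pow_le_pow_left₀ (Nat.cast_nonneg _) h1 k
    _ ≤ (((n : ℝ) + k) ^ (30 * k ^ 3) * Real.exp (C0 * s)) ^ k := by
        apply pow_le_pow_left₀ (by positivity)
        exact mul_le_mul_of_nonneg_left hΛe (by positivity)
    _ = Real.exp (30 * (k : ℝ) ^ 4 * Real.log ((n : ℝ) + k) + k * (C0 * s)) := by
        rw [mul_pow, ← pow_mul, Real.exp_add, Real.exp_nat_mul]
        congr 1
        have e1 : 30 * (k : ℝ) ^ 4 * Real.log ((n : ℝ) + k) =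
            ((30 * k ^ 3 * k : ℕ) : ℝ) * Real.log ((n : ℝ) + k) := by
          push_cast
          ring
        rw [e1, Real.exp_nat_mul, Real.exp_log hB0]
    _ ≤ Real.exp ((30 + C0) * (k * s + (k : ℝ) ^ 4 * Real.log ((n : ℝ) + k))) := by
        apply Real.exp_le_exp.2
        have h2 : 0 ≤ 30 * (k * s) := by positivity
        have h3 : 0 ≤ C0 * ((k : ℝ) ^ 4 * Real.log ((n : ℝ) + k)) := by positivity
        linarith

end Pool.Agent.K1H33.JA
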